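import Pool.Agent.H79.TD.Stm6
import Pool.Agent.H27.TD.Bin

/-!
# Project EX (helper79), statement BI2: proof as for BIN (helper27)
-/

set_option autoImplicit false

open MvPolynomial Module Pool.Agent.H77.TF

namespace Pool.Agent.H1.TD

open Pool.Agent.H79.TD Pool.Agent.H27.TD

theorem t_BI2 (hJ : S_JAC) (hP : S_PRI) : S_BI2 := by
  classical
  intro K _ κ _ b μ e v hb hchar hv hne hμ hdiv h1
  set R : MvPolynomial (Fin 2) K := X 0 * v 1 - X 1 * v 0 with hR
  set J : MvPolynomial (Fin 2) K := pderiv 0 (v 0) * pderiv 1 (v 1) - pderiv 1 (v 0) * pderiv 0 (v 1)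
    with hJd
  have hR0 : R ≠ 0 := sub_ne_zero.2 hne
  have hcase : ∀ k, b k 0 ≠ 0 ∨ b k 1 ≠ 0 := by
    intro k
    by_contra h
    push Not at h
    refine hb.1 k (funext fun i => ?_)
    fin_cases i
    · exact h.1
    · exact h.2
  have hun : ∀ c : K, c ≠ 0 → IsUnit (C c : MvPolynomial (Fin 2) K) := fun c hc =>
    (isUnit_iff_ne_zero.2 hc).map C
  have hlinR : ∀ k, lin (b k) ∣ R := by
    intro k
    have h4 : lin (b k) ∣ evl (b k) v :=
      (dvd_pow_self _ (by have := hμ k; omega)).trans (hdiv k)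
    have e1 : C (b k 1) * R = X 0 * evl (b k) v - v 0 * lin (b k) := by
      rw [hR, evl2, lin2]; ring
    have e0 : C (b k 0) * R = v 1 * lin (b k) - X 1 * evl (b k) v := by
      rw [hR, evl2, lin2]; ring
    rcases hcase k with h5 | h5
    · refine ((hun _ h5).dvd_mul_left).1 (e0 ▸ ?_)
      exact dvd_sub (dvd_mul_left _ _) (Dvd.dvd.mul_left h4 _)
    · refine ((hun _ h5).dvd_mul_left).1 (e1 ▸ ?_)
      exact dvd_sub (Dvd.dvd.mul_left h4 _) (dvd_mul_left _ _)
  have hlinJ : ∀ k, lin (b k) ^ (μ k - 1) ∣ J := by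
    intro k
    have hd := fun i => dvd_pderiv (hdiv k) i
    have hev : ∀ i, pderiv i (evl (b k) v) = C (b k 0) * pderiv i (v 0) + C (b k 1) * pderiv i (v 1) := by
      intro i
      rw [evl2, map_add, pderiv_C_mul, pderiv_C_mul]
    have e0 : C (b k 0) * J = pderiv 0 (evl (b k) v) * pderiv 1 (v 1) -
        pderiv 1 (evl (b k) v) * pderiv 0 (v 1) := by
      rw [hJd, hev, hev]; ring
    have e1 : C (b k 1) * J = pderiv 0 (v 0) * pderiv 1 (evl (b k) v) -
        pderiv 1 (v 0) * pderiv 0 (evl (b k) v) := by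
      rw [hJd, hev, hev]; ring
    rcases hcase k with h5 | h5
    · refine ((hun _ h5).dvd_mul_left).1 (e0 ▸ ?_)
      exact dvd_sub (Dvd.dvd.mul_right (hd 0) _) (Dvd.dvd.mul_right (hd 1) _)
    · refine ((hun _ h5).dvd_mul_left).1 (e1 ▸ ?_)
      exact dvd_sub (Dvd.dvd.mul_left (hd 1) _) (Dvd.dvd.mul_left (hd 0) _)
  by_cases hJ0 : J ≠ 0
  · right
    rcases Nat.eq_zero_or_pos e with he | he
    · exfalso
      apply hJ0
      have h4 : ∀ i j, pderiv j (v i) = 0 := by
        intro i j
        have h5 := hv i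
        rw [he] at h5
        have h6 : (v i).totalDegree = 0 := by
          rcases eq_or_ne (v i) 0 with h7 | h7
          · rw [h7, totalDegree_zero]
          · exact h5.totalDegree h7
        rw [totalDegree_eq_zero_iff_eq_C] at h6
        rw [h6, pderiv_C]
      rw [hJd, h4, h4, h4, h4]
      ring
    · have hp : ∀ i j, (pderiv j (v i)).IsHomogeneous (e - 1) := fun i j => (hv i).pderiv
      have hJh : J.IsHomogeneous ((e - 1) + (e - 1)) :=
        ((hp 0 0).mul (hp 1 1)).sub ((hp 0 1).mul (hp 1 0))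
      have h4 := deg_le hP hb (fun k => μ k - 1) Finset.univ hJh hJ0 (fun k _ => hlinJ k)
      have h5 : ∑ k, μ k = ∑ k, (μ k - 1) + Fintype.card κ := by
        rw [Fintype.card_eq_sum_ones, ← Finset.sum_add_distrib]
        exact Finset.sum_congr rfl fun k _ => by have := hμ k; omega
      omega
  left
  replace hJ0 : J = 0 := not_not.1 hJ0
  obtain ⟨c, hc0, hc⟩ := hJ K e v hchar hv (sub_eq_zero.1 hJ0)
  rw [evl2] at hc
  -- the form `ψ`
  obtain ⟨ψ, hψh, hψ0, hψ1⟩ : ∃ ψ : MvPolynomial (Fin 2) K, ψ.IsHomogeneous e ∧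
      v 0 = - (C (c 1) * ψ) ∧ v 1 = C (c 0) * ψ := by
    have hinv : ∀ t : K, t ≠ 0 → (C t⁻¹ : MvPolynomial (Fin 2) K) * C t = 1 := fun t ht => by
      rw [← C_mul, inv_mul_cancel₀ ht, C_1]
    have hCh : ∀ (t : K) (f : MvPolynomial (Fin 2) K), f.IsHomogeneous e →
        (C t * f).IsHomogeneous e := fun t f hf => by
      simpa using (isHomogeneous_C (Fin 2) t).mul hf
    by_cases h0 : c 0 = 0
    · have h4 : c 1 ≠ 0 := by
        intro h5
        apply hc0
        funext i
        fin_cases i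
        · exact h0
        · exact h5
      rw [h0, C_0, zero_mul, zero_add] at hc
      have h5 : v 1 = 0 := by
        rcases mul_eq_zero.1 hc with h6 | h6
        · exact absurd (C_eq_zero.1 h6) h4
        · exact h6
      refine ⟨- (C (c 1)⁻¹ * v 0), (hCh _ _ (hv 0)).neg, ?_, ?_⟩
      · calc v 0 = (C (c 1)⁻¹ * C (c 1)) * v 0 := by rw [hinv _ h4, one_mul]
          _ = _ := by ring
      · rw [h5, h0, C_0, zero_mul]
    · refine ⟨C (c 0)⁻¹ * v 1, hCh _ _ (hv 1), ?_, ?_⟩
      · calc v 0 = (C (c 0)⁻¹ * C (c 0)) * v 0 := by rw [hinv _ h0, one_mul]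
          _ = C (c 0)⁻¹ * (C (c 0) * v 0) := by ring
          _ = C (c 0)⁻¹ * (- (C (c 1) * v 1)) := by
              congr 1
              linear_combination hc
          _ = _ := by ring
      · calc v 1 = (C (c 0)⁻¹ * C (c 0)) * v 1 := by rw [hinv _ h0, one_mul]
          _ = _ := by ring
  have hψne : ψ ≠ 0 := by
    rintro rfl
    apply hR0
    rw [hR, hψ0, hψ1]
    ring
  have hev : ∀ k, evl (b k) v = C (b k 1 * c 0 - b k 0 * c 1) * ψ := by
    intro k
    rw [evl2, hψ0, hψ1, C_sub, C_mul, C_mul]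
    ring
  set s : Finset κ := Finset.univ.filter fun k => b k 1 * c 0 - b k 0 * c 1 ≠ 0 with hs
  have hsum : ∑ k ∈ s, μ k ≤ e := deg_le hP hb μ s hψh hψne fun k hk => by
    have h4 := (Finset.mem_filter.1 hk).2
    have h5 := hdiv k
    rw [hev] at h5
    exact ((hun _ h4).dvd_mul_left).1 h5
  -- at most one class is outside `s`
  have hone : ∀ k l, k ∉ s → l ∉ s → k = l := by
    intro k l hk hl
    by_contra hkl
    simp only [hs, Finset.mem_filter, Finset.mem_univ, true_and, not_not] at hk hl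
    have hprop : ∀ k, b k 1 * c 0 - b k 0 * c 1 = 0 → ∃ t : K, b k = t • c := by
      intro k hk
      by_cases h0 : c 0 = 0
      · have h4 : c 1 ≠ 0 := by
          intro h5
          apply hc0
          funext i
          fin_cases i
          · exact h0
          · exact h5
        refine ⟨b k 1 / c 1, funext fun i => ?_⟩
        fin_cases i
        · rw [h0, mul_zero, zero_sub, neg_eq_zero] at hk
          have h5 : b k 0 = 0 := (mul_eq_zero.1 hk).resolve_right h4
          simp [h5, h0]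
        · simp [h4]
      · refine ⟨b k 0 / c 0, funext fun i => ?_⟩
        fin_cases i
        · simp [h0]
        · simp only [Fin.mk_one, Pi.smul_apply, smul_eq_mul]
          field_simp
          linear_combination hk
    obtain ⟨t, ht⟩ := hprop k hk
    obtain ⟨u, hu⟩ := hprop l hl
    have hu0 : u ≠ 0 := by
      rintro rfl
      exact hb.1 l (by rw [hu, zero_smul])
    refine hb.2 k l hkl (t * u⁻¹) ?_
    rw [ht, hu, smul_smul, mul_assoc, inv_mul_cancel₀ hu0, mul_one]
  have hκ : Nonempty κ := by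
    by_contra h
    rw [not_nonempty_iff] at h
    simp at h1
  by_cases hall : ∀ k, k ∈ s
  · obtain ⟨k₀⟩ := hκ
    refine ⟨k₀, ?_⟩
    have h4 : s = Finset.univ := Finset.eq_univ_of_forall hall
    rw [h4] at hsum
    omega
  · push Not at hall
    obtain ⟨k₀, hk₀⟩ := hall
    refine ⟨k₀, ?_⟩
    have h4 : (Finset.univ : Finset κ) = insert k₀ s := by
      ext k
      simp only [Finset.mem_univ, Finset.mem_insert, true_iff]
      by_cases h5 : k ∈ s
      · exact Or.inr h5
      · exact Or.inl (hone k k₀ h5 hk₀)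
    rw [h4, Finset.sum_insert hk₀]
    omega

end Pool.Agent.H1.TD
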