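import Mathlib
import Pool.Agent.H79.TD.Stm

/-!
# Project TD, module NUM: existence of the two forms, from DIM, DU3 and INQ
-/

set_option autoImplicit false

open MvPolynomial Module Pool.Agent.H77.TF

namespace Pool.Agent.H1.TD

open Pool.Agent.H79.TD

lemma two_P (e : ℕ) : 2 * (e + 2).choose 2 = (e + 1) * (e + 2) := by
  induction e with
  | zero => rfl
  | succ e ih =>
    rw [show e + 1 + 2 = (e + 2) + 1 by ring, Nat.choose_succ_succ (e + 2) 1, Nat.choose_one_right,
      mul_add, ih]
    ring

section

variable {K : Type} [Field K]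

/-- a homogeneous multiple of a form is a multiple by a form -/
lemma hom_factor {u j : ℕ} {f g h : MvPolynomial (Fin 3) K} (hf : f.IsHomogeneous u)
    (hg : g.IsHomogeneous (u + j)) (hfg : g = f * h) : g = f * homogeneousComponent j h := by
  have h1 : homogeneousComponent (u + j) g = g := by
    rw [homogeneousComponent_of_mem ((mem_homogeneousSubmodule _ _).2 hg), if_pos rfl]
  have h2 : ∀ i, homogeneousComponent (u + j) (f * homogeneousComponent i h) =
      if u + j = u + i then f * homogeneousComponent i h else 0 := by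
    intro i
    exact homogeneousComponent_of_mem
      ((mem_homogeneousSubmodule _ _).2 (hf.mul (homogeneousComponent_isHomogeneous i h)))
  have h3 : g = ∑ i ∈ Finset.range (h.totalDegree + 1), f * homogeneousComponent i h := by
    rw [← Finset.mul_sum, sum_homogeneousComponent, hfg]
  rw [← h1]
  conv_lhs => rw [h3]
  rw [map_sum, Finset.sum_congr rfl (fun i _ => h2 i)]
  by_cases hj : j ∈ Finset.range (h.totalDegree + 1)
  · rw [Finset.sum_eq_single_of_mem j hj]
    · rw [if_pos rfl]
    · intro i _ hi
      rw [if_neg (by omega)]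
  · rw [Finset.sum_eq_zero]
    · rw [homogeneousComponent_eq_zero _ _ (by simpa using hj), mul_zero]
    · intro i hi
      rw [if_neg]
      rintro h4
      have : i = j := by omega
      exact hj (this ▸ hi)

/-- if all elements of `VD A w` are multiples of `f` -/
lemma finrank_le_of_dvd (hDIM : S_DIM) {ν : Type} (A : ν → Fin 3 → K) {u j : ℕ}
    {f : MvPolynomial (Fin 3) K} (hf : f.IsHomogeneous u)
    (h : ∀ g ∈ VD A (u + j), f ∣ g) : finrank K (VD A (u + j)) ≤ (j + 2).choose 2 := by
  obtain ⟨h1, h2⟩ := hDIM K j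
  rw [← h2]
  have h3 : VD A (u + j) ≤ (homogeneousSubmodule (Fin 3) K j).map (LinearMap.mulLeft K f) := by
    intro g hg
    obtain ⟨k, hk⟩ := h g hg
    refine ⟨homogeneousComponent j k, ?_, ?_⟩
    · exact (mem_homogeneousSubmodule _ _).2 (homogeneousComponent_isHomogeneous j k)
    · rw [LinearMap.mulLeft_apply]
      exact (hom_factor hf hg.1 hk).symm
  exact (Submodule.finrank_mono h3).trans (Submodule.finrank_map_le _ _)

lemma finrank_VD_bot {ν : Type} (A : ν → Fin 3 → K) {e : ℕ} (h : VD A e = ⊥) :
    finrank K (VD A e) = 0 := by rw [h, finrank_bot]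

end

theorem t_NUM (hDIM : S_DIM) (hDU3 : S_DU3) (hINQ : S_INQ) : S_NUM := by
  intro K _ _ ν _ _ A u w hA hu huw hn hunc
  classical
  have part1 : ∃ k ≤ u, VD A k ≠ ⊥ := by
    by_contra hcon
    push Not at hcon
    have hHu := finrank_VD_bot A (hcon u le_rfl)
    have pu := two_P u
    by_cases hw : w ≤ 2
    · have h1 := (hDU3 K ν A u).1
      rw [hunc, hHu, add_zero] at h1
      interval_cases w <;> interval_cases u <;> omega
    · obtain ⟨v, rfl⟩ : ∃ v, w = v + 3 := ⟨w - 3, by omega⟩
      have h1 := (hDU3 K ν A u).2 v (by omega)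
      rw [hunc, hHu, add_zero] at h1
      have pv := two_P v
      have h2 : 1 ≤ finrank K (VD A v) := by
        by_contra h3
        have h4 : finrank K (VD A v) = 0 := by omega
        rw [h4, add_zero] at h1
        have h5 : (u + 1) * (u + 2) + (v + 1) * (v + 2) ≤ 2 * (u * (v + 3)) := by
          rw [← pu, ← pv]; omega
        rcases le_total u v with h6 | h6
        · obtain ⟨r, rfl⟩ : ∃ r, v = u + r := ⟨v - u, by omega⟩
          nlinarith
        · obtain ⟨r, rfl⟩ : ∃ r, u = v + r := ⟨u - v, by omega⟩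
          have h7 : r ≤ 3 := by omega
          interval_cases r <;> nlinarith
      have hex : ∃ k, VD A k ≠ ⊥ := ⟨v, fun h3 => by
        rw [finrank_VD_bot A h3] at h2
        omega⟩
      have hα := Nat.find_spec hex
      have hαmin : ∀ k < Nat.find hex, VD A k = ⊥ := fun k hk => by
        by_contra h3
        exact Nat.find_min hex hk h3
      have hαv : Nat.find hex ≤ v := Nat.find_min' hex (fun h3 => by
        rw [finrank_VD_bot A h3] at h2
        omega)
      have hαu : u < Nat.find hex := by
        by_contra h3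
        exact hα (hcon _ (by omega))
      generalize Nat.find hex = α at *
      obtain ⟨f, hf, hf0⟩ := Submodule.exists_mem_ne_zero_of_ne_bot hα
      obtain ⟨r, rfl⟩ : ∃ r, α = u + r := ⟨α - u, by omega⟩
      obtain ⟨t, rfl⟩ : ∃ t, v = u + r + t := ⟨v - (u + r), by omega⟩
      have h3 := hINQ K ν A (u + r) (u + t + 3) f hA hf0 hf hαmin (by omega) (by omega)
      rw [hunc] at h3
      have hr : 1 ≤ r := by omega
      nlinarith [Nat.mul_le_mul hr (Nat.zero_le t)]
  refine ⟨part1, fun hlow => ?_⟩
  obtain ⟨k, hk, hk0⟩ := part1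
  have hku : k = u := by
    by_contra h1
    exact hk0 (hlow k (by omega))
  subst hku
  obtain ⟨f, hf, hf0⟩ := Submodule.exists_mem_ne_zero_of_ne_bot hk0
  by_contra hcon
  push Not at hcon
  obtain ⟨j, rfl⟩ : ∃ j, w = k + j := ⟨w - k, by omega⟩
  have hH := finrank_le_of_dvd hDIM A hf.1 (j := j) (fun g hg => hcon f g hf0 hf hg)
  have p1 := two_P (k + j)
  have p2 := two_P j
  by_cases hk3 : k ≤ 2
  · have h1 := (hDU3 K ν A (k + j)).1
    rw [hunc] at h1
    have h2 : (k + j + 1) * (k + j + 2) ≤ 2 * (k * (k + j)) + (j + 1) * (j + 2) := by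
      rw [← p1, ← p2]; omega
    interval_cases k <;> nlinarith
  · obtain ⟨i, rfl⟩ : ∃ i, k = i + 3 := ⟨k - 3, by omega⟩
    have h1 := (hDU3 K ν A (i + 3 + j)).2 i (by omega)
    rw [hunc, finrank_VD_bot A (hlow i (by omega)), add_zero] at h1
    have p3 := two_P i
    have h2 : (i + 3 + j + 1) * (i + 3 + j + 2) + (i + 1) * (i + 2) ≤
        2 * ((i + 3) * (i + 3 + j)) + (j + 1) * (j + 2) := by
      rw [← p1, ← p2, ← p3]; omega
    nlinarith

end Pool.Agent.H1.TD
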