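import Pool.Agent.H79.TD.Stm4

/-!
# Spreading out (module `S_SPD`)
-/

set_option autoImplicit false

open MvPolynomial Module Pool.Agent.H77.TF Pool.Agent.H77.GR Pool.Agent.H79.TD

namespace Pool.Agent.H1.TD

lemma lift_poly {F : Type} [Field F] (R : Subring F) (p : MvPolynomial (Fin 3) F)
    (h : (↑p.coeffs : Set F) ⊆ R) : ∃ q : MvPolynomial (Fin 3) R, MvPolynomial.map R.subtype q = p := by
  have h1 : p ∈ Set.range (MvPolynomial.map (σ := Fin 3) R.subtype) := by
    rw [mem_range_map_iff_coeffs_subset]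
    intro x hx
    exact ⟨⟨x, h hx⟩, rfl⟩
  exact h1

lemma map_linR {R S : Type} [CommRing R] [CommRing S] (f : R →+* S) (a : Fin 3 → R) :
    MvPolynomial.map f (linR a) = linR (fun j => f (a j)) := by
  unfold linR
  simp [map_sum]

lemma map_evlR {R S : Type} [CommRing R] [CommRing S] (f : R →+* S) (a : Fin 3 → R)
    (v : Fin 3 → MvPolynomial (Fin 3) R) :
    MvPolynomial.map f (evlR a v) = evlR (fun j => f (a j)) (fun j => MvPolynomial.map f (v j)) := by
  unfold evlR
  simp [map_sum]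

lemma map_det3 {R S : Type} [CommRing R] [CommRing S] (f : R →+* S) (a b c : Fin 3 → R) :
    f (Matrix.of ![a, b, c]).det = (Matrix.of ![fun j => f (a j), fun j => f (b j), fun j => f (c j)]).det := by
  rw [RingHom.map_det]
  congr 1
  ext i j
  fin_cases i <;> rfl

/-- forms which are distinct stay distinct -/
lemma simple_map {F : Type} [Field F] (R : Subring F) {n : ℕ} (A₀ : Fin n → Fin 3 → R) (k : Type)
    [Field k] (f : R →+* k) (hA : Simple (mapA R.subtype A₀))
    (h1 : ∀ i t, A₀ i t ≠ 0 → f (A₀ i t) ≠ 0)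
    (h2 : ∀ i j t u, A₀ i t * A₀ j u - A₀ i u * A₀ j t ≠ 0 →
      f (A₀ i t * A₀ j u - A₀ i u * A₀ j t) ≠ 0) : Simple (mapA f A₀) := by
  constructor
  · intro i h0
    apply hA.1 i
    funext t
    by_contra hne
    have h3 : A₀ i t ≠ 0 := by
      intro h4
      apply hne
      show R.subtype (A₀ i t) = 0
      rw [h4, map_zero]
    exact h1 i t h3 (congrFun h0 t)
  · intro i j hij c hc
    -- all minors of the images vanish
    have hmin : ∀ t u, A₀ i t * A₀ j u - A₀ i u * A₀ j t = 0 := by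
      intro t u
      by_contra hne
      apply h2 i j t u hne
      have e1 : f (A₀ i t) = c * f (A₀ j t) := congrFun hc t
      have e2 : f (A₀ i u) = c * f (A₀ j u) := congrFun hc u
      rw [map_sub, map_mul, map_mul, e1, e2]
      ring
    obtain ⟨u, hu⟩ : ∃ u, mapA R.subtype A₀ j u ≠ 0 := by
      by_contra hcon
      push Not at hcon
      exact hA.1 j (funext hcon)
    apply hA.2 i j hij (mapA R.subtype A₀ i u / mapA R.subtype A₀ j u)
    funext t
    have h3 := congrArg R.subtype (hmin t u)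
    rw [map_sub, map_mul, map_mul, map_zero] at h3
    have h4 : mapA R.subtype A₀ i t * mapA R.subtype A₀ j u =
        mapA R.subtype A₀ i u * mapA R.subtype A₀ j t := sub_eq_zero.1 h3
    rw [Pi.smul_apply, smul_eq_mul, div_mul_eq_mul_div, eq_div_iff hu]
    exact h4

theorem t_SPD (hRNG : S_RNG) : S_SPD := by
  classical
  intro F _ n A B e a hA hB hD ha
  obtain ⟨V, c, hc, hV, hdiv, hdet⟩ := hD
  choose G hG using hdiv
  -- the elements which are needed
  set T : Set F := (Set.range fun p : Fin n × Fin 3 => A p.1 p.2) ∪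
    (Set.range fun p : Fin n × Fin 3 => B p.1 p.2) ∪
    (Set.range fun p : (Fin n × Fin n) × (Fin 3 × Fin 3) =>
      A p.1.1 p.2.1 * A p.1.2 p.2.2 - A p.1.1 p.2.2 * A p.1.2 p.2.1) ∪
    (Set.range fun p : (Fin n × Fin n) × (Fin 3 × Fin 3) =>
      B p.1.1 p.2.1 * B p.1.2 p.2.2 - B p.1.1 p.2.2 * B p.1.2 p.2.1) ∪
    (Set.range fun p : Fin n × Fin n × Fin n => (Matrix.of ![A p.1, A p.2.1, A p.2.2]).det) ∪
    (Set.range fun p : Fin n × Fin n × Fin n => (Matrix.of ![B p.1, B p.2.1, B p.2.2]).det) ∪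
    (Set.range fun l : Fin a => ((l : ℕ) : F)) ∪ {c} ∪
    (⋃ p : Fin 3 × Fin 3, (↑(V p.1 p.2).coeffs : Set F)) ∪
    (⋃ p : Fin 3 × Fin n, (↑(G p.1 p.2).coeffs : Set F)) with hT
  have hTfin : T.Finite := by
    rw [hT]
    refine Set.Finite.union (Set.Finite.union (Set.Finite.union (Set.Finite.union (Set.Finite.union
      (Set.Finite.union (Set.Finite.union (Set.Finite.union (Set.Finite.union ?_ ?_) ?_) ?_) ?_) ?_)
      ?_) ?_) ?_) ?_
    · exact Set.finite_range _
    · exact Set.finite_range _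
    · exact Set.finite_range _
    · exact Set.finite_range _
    · exact Set.finite_range _
    · exact Set.finite_range _
    · exact Set.finite_range _
    · exact Set.finite_singleton _
    · exact Set.finite_iUnion fun p => Finset.finite_toSet _
    · exact Set.finite_iUnion fun p => Finset.finite_toSet _
  have mA : ∀ i t, A i t ∈ T := fun i t => by
    rw [hT]
    exact Or.inl (Or.inl (Or.inl (Or.inl (Or.inl (Or.inl (Or.inl (Or.inl (Or.inl ⟨(i, t), rfl⟩))))))))
  have mB : ∀ i t, B i t ∈ T := fun i t => by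
    rw [hT]
    exact Or.inl (Or.inl (Or.inl (Or.inl (Or.inl (Or.inl (Or.inl (Or.inl (Or.inr ⟨(i, t), rfl⟩))))))))
  have mA2 : ∀ i j t u, A i t * A j u - A i u * A j t ∈ T := fun i j t u => by
    rw [hT]
    exact Or.inl (Or.inl (Or.inl (Or.inl (Or.inl (Or.inl (Or.inl (Or.inr ⟨((i, j), (t, u)), rfl⟩)))))))
  have mB2 : ∀ i j t u, B i t * B j u - B i u * B j t ∈ T := fun i j t u => by
    rw [hT]
    exact Or.inl (Or.inl (Or.inl (Or.inl (Or.inl (Or.inl (Or.inr ⟨((i, j), (t, u)), rfl⟩))))))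
  have mA3 : ∀ i j l, (Matrix.of ![A i, A j, A l]).det ∈ T := fun i j l => by
    rw [hT]
    exact Or.inl (Or.inl (Or.inl (Or.inl (Or.inl (Or.inr ⟨(i, j, l), rfl⟩)))))
  have mB3 : ∀ i j l, (Matrix.of ![B i, B j, B l]).det ∈ T := fun i j l => by
    rw [hT]
    exact Or.inl (Or.inl (Or.inl (Or.inl (Or.inr ⟨(i, j, l), rfl⟩))))
  have mn : ∀ l : ℕ, l < a → (l : F) ∈ T := fun l hl => by
    rw [hT]
    exact Or.inl (Or.inl (Or.inl (Or.inr ⟨⟨l, hl⟩, rfl⟩)))
  have mc : c ∈ T := by
    rw [hT]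
    exact Or.inl (Or.inl (Or.inr rfl))
  have mV : ∀ j i, (↑(V j i).coeffs : Set F) ⊆ T := fun j i x hx => by
    rw [hT]
    exact Or.inl (Or.inr (Set.mem_iUnion.2 ⟨(j, i), hx⟩))
  have mG : ∀ j i, (↑(G j i).coeffs : Set F) ⊆ T := fun j i x hx => by
    rw [hT]
    exact Or.inr (Set.mem_iUnion.2 ⟨(j, i), hx⟩)
  clear_value T
  obtain ⟨R, hR, hRfin, hRmax⟩ := hRNG F (hTfin.union (hTfin.image fun x => x⁻¹)).toFinset
  have hTR : ∀ x ∈ T, x ∈ R := fun x hx => hR (by simpa using Or.inl hx)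
  have hTR' : ∀ x ∈ T, x⁻¹ ∈ R := fun x hx => hR (by
    rw [Set.Finite.coe_toFinset]
    exact Or.inr ⟨x, hx, rfl⟩)
  -- units
  have hunit : ∀ x : R, (x : F) ∈ T → x ≠ 0 → IsUnit x := by
    intro x hx h0
    have h1 : (x : F) ≠ 0 := fun h => h0 (Subtype.ext h)
    refine IsUnit.of_mul_eq_one ⟨(x : F)⁻¹, hTR' _ hx⟩ ?_
    apply Subtype.ext
    exact mul_inv_cancel₀ h1
  have hne : ∀ x : R, (x : F) ∈ T → x ≠ 0 → ∀ (k : Type) [Field k] (f : R →+* k), f x ≠ 0 := by
    intro x hx h0 k _ f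
    exact ((hunit x hx h0).map f).ne_zero
  have hinj : Function.Injective (MvPolynomial.map (σ := Fin 3) R.subtype) :=
    MvPolynomial.map_injective _ Subtype.val_injective
  set A₀ : Fin n → Fin 3 → R := fun i t => ⟨A i t, hTR _ (mA i t)⟩ with hA₀
  set B₀ : Fin n → Fin 3 → R := fun i t => ⟨B i t, hTR _ (mB i t)⟩ with hB₀
  have hAA : mapA R.subtype A₀ = A := rfl
  have hBB : mapA R.subtype B₀ = B := rfl
  have hdA : ∀ i j l, (((Matrix.of ![A₀ i, A₀ j, A₀ l]).det : R) : F) =
      (Matrix.of ![A i, A j, A l]).det := fun i j l => map_det3 R.subtype _ _ _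
  have hdB : ∀ i j l, (((Matrix.of ![B₀ i, B₀ j, B₀ l]).det : R) : F) =
      (Matrix.of ![B i, B j, B l]).det := fun i j l => map_det3 R.subtype _ _ _
  refine ⟨R, A₀, B₀, hAA, hBB, hRfin, hRmax, ?_, ?_⟩
  · -- the data over `R`
    choose V₀ hV₀ using fun j i => lift_poly R (V j i) fun x hx => hTR x (mV j i hx)
    choose G₀ hG₀ using fun j i => lift_poly R (G j i) fun x hx => hTR x (mG j i hx)
    have hc0 : c ≠ 0 := hc.ne_zero
    refine ⟨V₀, ⟨c, hTR c mc⟩, hunit _ mc (fun h => hc0 (congrArg Subtype.val h)), ?_, ?_, ?_⟩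
    · intro j i d hd
      apply hV j i
      rw [← hV₀ j i, coeff_map]
      intro h
      exact hd (Subtype.ext h)
    · intro j i
      refine ⟨G₀ j i, hinj ?_⟩
      rw [map_evlR, map_mul, map_linR, hG₀]
      have h1 : (fun t => MvPolynomial.map R.subtype (V₀ j t)) = V j := funext fun t => hV₀ j t
      rw [h1]
      exact hG j i
    · apply hinj
      rw [map_mul, map_C, map_prod]
      have h1 : MvPolynomial.map R.subtype (Matrix.of V₀).det = (Matrix.of V).det := by
        rw [RingHom.map_det]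
        congr 1
        ext j i : 1
        exact hV₀ j i
      have h2 : ∀ i, MvPolynomial.map R.subtype (linR (A₀ i)) = linR (A i) := fun i =>
        map_linR R.subtype (A₀ i)
      rw [h1, hdet, Finset.prod_congr rfl fun i _ => h2 i]
      rfl
  · intro m k _ f hker hm
    refine ⟨?_, ?_, ?_, ?_, ?_⟩
    · refine simple_map R A₀ k f (by rw [hAA]; exact hA) ?_ ?_
      · intro i t h0
        exact hne _ (mA i t) h0 k f
      · intro i j t u h0
        exact hne _ (mA2 i j t u) h0 k f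
    · refine simple_map R B₀ k f (by rw [hBB]; exact hB) ?_ ?_
      · intro i t h0
        exact hne _ (mB i t) h0 k f
      · intro i j t u h0
        exact hne _ (mB2 i j t u) h0 k f
    · intro i j l h
      by_contra h0
      rw [← hker, RingHom.mem_ker] at h
      exact hne _ (by rw [hdA]; exact mA3 i j l) h0 k f h
    · intro i j l h
      by_contra h0
      rw [← hker, RingHom.mem_ker] at h
      exact hne _ (by rw [hdB]; exact mB3 i j l) h0 k f h
    · intro l hl0 hla h
      have h1 : ((l : R) : F) = (l : F) := by simp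
      have h2 : (l : R) ≠ 0 := by
        intro h3
        apply ha l hl0 hla
        rw [← h1, h3]
        simp
      have h3 := hne (l : R) (by rw [h1]; exact mn l hla) h2 k f
      rw [map_natCast] at h3
      exact h3 h

end Pool.Agent.H1.TD
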